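import Pool.Agent.Lib.P1f4382.Main

set_option autoImplicit false

namespace Pool.Agent.Results.MP_1f4382_co.ExponentialGraphs

/-- Vertices of a tripartite 3-graph with parts `X`, `Y`, `Z` of size `n`. -/
inductive Vert (n : ℕ) where
  | X (x : Fin n)
  | Y (y : Fin n)
  | Z (z : Fin n)

/-- `{u, v, w}` is an edge of the tripartite 3-graph with edges `xyz`, `H x y z`
(the three vertices lie in the three different parts, in any order). -/
def Edge {n : ℕ} (H : Fin n → Fin n → Fin n → Prop) : Vert n → Vert n → Vert n → Prop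
  | .X x, .Y y, .Z z => H x y z
  | .X x, .Z z, .Y y => H x y z
  | .Y y, .X x, .Z z => H x y z
  | .Y y, .Z z, .X x => H x y z
  | .Z z, .X x, .Y y => H x y z
  | .Z z, .Y y, .X x => H x y z
  | _, _, _ => False

/-- The VC₂ dimension of the 3-graph is at least `d`. -/
def VC2AtLeast {n : ℕ} (H : Fin n → Fin n → Fin n → Prop) (d : ℕ) : Prop :=
  ∃ a b : Fin d → Vert n, ∀ S : Set (Fin d × Fin d), ∃ c : Vert n,
    ∀ i j : Fin d, Edge H (a i) (b j) c ↔ (i, j) ∈ S

/-- `H` has an `ε`-graph partition with `M` graphs. -/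
def HasGraphPartition {n : ℕ} (H : Fin n → Fin n → Fin n → Prop) (ε : ℝ) (M : ℕ) : Prop :=
  ∃ (α β γ : Fin n → Fin n → Fin M) (f : Fin M → Fin M → Fin M → Bool),
    (Nat.card {t : Fin n × Fin n × Fin n //
      ¬ (H t.1 t.2.1 t.2.2 ↔ f (α t.1 t.2.1) (β t.1 t.2.2) (γ t.2.1 t.2.2) = true)} : ℝ)
      ≤ ε * (n : ℝ) ^ 3

/-- The statement of Q1. -/
def PolynomialGraphPartitions : Prop :=
  ∀ d : ℕ, 1 ≤ d → ∃ C : ℝ, ∀ ε : ℝ, 0 < ε → ε < 1 → ∀ (n : ℕ) (H : Fin n → Fin n → Fin n → Prop),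
    ¬ VC2AtLeast H (d + 1) →
      ∃ M : ℕ, 1 ≤ M ∧ (M : ℝ) ≤ C * ε ^ (-C) ∧ HasGraphPartition H ε M

open Pool.Agent.Lib.P1f4382

theorem not_vc2 {p : ℕ} [Fact p.Prime] {n : ℕ} (cx cy : Fin n → Pt p)
    (R : Idx p × Fin n → Bool) : ¬ VC2AtLeast (G cx cy R) 2 := by
  rintro ⟨a, b, hab⟩
  obtain ⟨c, hc⟩ := hab Set.univ
  have c00 := (hc 0 0).2 trivial
  have c01 := (hc 0 1).2 trivial
  have c10 := (hc 1 0).2 trivial
  have c11 := (hc 1 1).2 trivial
  obtain ⟨w, hw⟩ := hab {(0, 0)}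
  have w00 := (hw 0 0).2 rfl
  have w10 : ¬ Edge (G cx cy R) (a 1) (b 0) w := fun h => by simpa using (hw 1 0).1 h
  have w01 : ¬ Edge (G cx cy R) (a 0) (b 1) w := fun h => by simpa using (hw 0 1).1 h
  obtain ⟨u, hu⟩ := hab {(0, 0), (1, 1)}
  have u00 := (hu 0 0).2 (by simp)
  have u11 := (hu 1 1).2 (by simp)
  have u01 : ¬ Edge (G cx cy R) (a 0) (b 1) u := fun h => by simpa using (hu 0 1).1 h
  have u10 : ¬ Edge (G cx cy R) (a 1) (b 0) u := fun h => by simpa using (hu 1 0).1 h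
  obtain ⟨v, hv⟩ := hab {(0, 1), (1, 0)}
  have v01 := (hv 0 1).2 (by simp)
  have v10 := (hv 1 0).2 (by simp)
  clear hc hw hu hv hab
  generalize a 0 = a0 at *
  generalize a 1 = a1 at *
  generalize b 0 = b0 at *
  generalize b 1 = b1 at *
  rcases a0 with a0 | a0 | a0 <;> rcases b0 with b0 | b0 | b0 <;>
    rcases c with c | c | c <;> (try exact c00) <;>
    rcases a1 with a1 | a1 | a1 <;> (try exact c10) <;>
    rcases b1 with b1 | b1 | b1 <;> (try exact c01) <;>
    rcases w with w | w | w <;> (try exact w00) <;>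
    rcases u with u | u | u <;> (try exact u00) <;>
    rcases v with v | v | v <;> (try exact v01) <;>
    simp only [Edge] at *
  · exact vc_xy a0 a1 b0 b1 c w w c00 c01 c10 c11 w00 w10 w00 w01
  · exact vc_xz a0 a1 b0 b1 u v u00 u11 u01 v01 v10
  · exact vc_xy b0 b1 a0 a1 c w w c00 c10 c01 c11 w00 w01 w00 w10
  · exact vc_yz a0 a1 b0 b1 u v u00 u11 u01 v01 v10
  · exact vc_xz b0 b1 a0 a1 u v u00 u11 u10 v10 v01
  · exact vc_yz b0 b1 a0 a1 u v u00 u11 u10 v10 v01

theorem key {p K : ℕ} [hp : Fact p.Prime] (hK : 8 * K ≤ p) :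
    ∃ (n : ℕ) (H : Fin n → Fin n → Fin n → Prop), 0 < n ∧ ¬ VC2AtLeast H 2 ∧
      ∀ (ε : ℝ) (M : ℕ), ε ≤ 1 / (8 * (p : ℝ)) → M ≤ 2 ^ K → ¬ HasGraphPartition H ε M := by
  classical
  obtain ⟨n, c, R, hn, hbad⟩ := bad p K hK
  refine ⟨n, G c c R, hn, not_vc2 c c R, ?_⟩
  rintro ε M hε hM ⟨α, β, γ, f, herr⟩
  have hp0 : (0 : ℝ) < p := by exact_mod_cast hp.out.pos
  have hb := hbad M hM α β γ f
  have hb' : ((n : ℝ)) ^ 3 < 8 * p * ((Finset.univ.filter (fun t : Fin n × Fin n × Fin n =>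
        ¬ (G c c R t.1 t.2.1 t.2.2 ↔
          f (α t.1 t.2.1) (β t.1 t.2.2) (γ t.2.1 t.2.2) = true))).card : ℝ) := by
    exact_mod_cast hb
  rw [Nat.card_eq_fintype_card, Fintype.card_subtype] at herr
  have h3 : 8 * (p : ℝ) * ((Finset.univ.filter (fun t : Fin n × Fin n × Fin n =>
        ¬ (G c c R t.1 t.2.1 t.2.2 ↔
          f (α t.1 t.2.1) (β t.1 t.2.2) (γ t.2.1 t.2.2) = true))).card : ℝ) ≤
      8 * (p : ℝ) * (1 / (8 * (p : ℝ)) * (n : ℝ) ^ 3) := by
    refine mul_le_mul_of_nonneg_left ?_ (by positivity)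
    refine herr.trans ?_
    exact mul_le_mul_of_nonneg_right hε (by positivity)
  have h4 : 8 * (p : ℝ) * (1 / (8 * (p : ℝ)) * (n : ℝ) ^ 3) = (n : ℝ) ^ 3 := by
    field_simp
  linarith

/-- Exponentially many graphs are needed already for VC₂ dimension at most 1; in particular the
answer to Q1 is negative. -/
theorem result :
    (∀ ε : ℝ, 0 < ε → ε < 1 → ∃ (n : ℕ) (H : Fin n → Fin n → Fin n → Prop), 0 < n ∧
      ¬ VC2AtLeast H 2 ∧
      ∀ M : ℕ, HasGraphPartition H ε M → (2 : ℝ) ^ (1 / (128 * ε)) ≤ 2 * M) ∧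
    ¬ PolynomialGraphPartitions := by
  refine ⟨?_, ?_⟩
  · intro ε h0 h1
    by_cases hε : ε ≤ 1 / 16
    · obtain ⟨p, hp, hlt, hle⟩ := exists_prime_of_eps ε h0 hε
      have : Fact p.Prime := ⟨hp⟩
      obtain ⟨n, H, hn, hvc, hH⟩ := key (p := p) (K := p / 8) (by omega)
      refine ⟨n, H, hn, hvc, fun M hM => ?_⟩
      have hp0 : (0 : ℝ) < p := by exact_mod_cast hp.pos
      have hεp : ε ≤ 1 / (8 * (p : ℝ)) := by
        rw [le_div_iff₀ (by positivity)]
        rw [le_div_iff₀ (by positivity)] at hle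
        linarith
      have hM2 : 2 ^ (p / 8) < M := by
        by_contra hcon
        exact hH ε M hεp (not_lt.1 hcon) hM
      have h2 : (2 : ℝ) ^ (p / 8 : ℕ) ≤ M := by exact_mod_cast hM2.le
      have h3 : (2 : ℝ) ^ (1 / (128 * ε)) ≤ (2 : ℝ) ^ ((((p / 8 : ℕ)) : ℝ) + 1) := by
        apply Real.rpow_le_rpow_of_exponent_le (by norm_num)
        have h8 : p < 8 * (p / 8) + 8 := by omega
        have h9 : (p : ℝ) < 8 * ((p / 8 : ℕ) : ℝ) + 8 := by exact_mod_cast h8
        have h10 : 1 / (128 * ε) = 1 / (16 * ε) / 8 := by field_simp; norm_num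
        rw [h10]
        linarith
      refine h3.trans ?_
      rw [Real.rpow_add_one (by norm_num), Real.rpow_natCast]
      linarith
    · refine ⟨1, fun _ _ _ => True, one_pos, ?_, ?_⟩
      · rintro ⟨a, b, hab⟩
        obtain ⟨c, hc⟩ := hab Set.univ
        obtain ⟨w, hw⟩ := hab {(0, 0)}
        have c00 := (hc 0 0).2 trivial
        have c10 := (hc 1 0).2 trivial
        have w00 := (hw 0 0).2 rfl
        have w10 : ¬ Edge (fun _ _ _ : Fin 1 => True) (a 1) (b 0) w :=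
          fun h => by simpa using (hw 1 0).1 h
        clear hc hw hab
        generalize a 0 = a0 at *
        generalize a 1 = a1 at *
        generalize b 0 = b0 at *
        rcases a0 with a0 | a0 | a0 <;> rcases b0 with b0 | b0 | b0 <;>
          rcases c with c | c | c <;> (try exact c00) <;>
          rcases a1 with a1 | a1 | a1 <;> (try exact c10) <;>
          rcases w with w | w | w <;> (try exact w00) <;> exact w10 trivial
      · rintro M ⟨α, _, _, _, _⟩
        have hM : 1 ≤ M := by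
          have := (α 0 0).2
          omega
        have hM' : (1 : ℝ) ≤ M := by exact_mod_cast hM
        have h2 : (2 : ℝ) ^ (1 / (128 * ε)) ≤ (2 : ℝ) ^ (1 : ℝ) := by
          apply Real.rpow_le_rpow_of_exponent_le (by norm_num)
          rw [div_le_one (by positivity)]
          linarith
        rw [Real.rpow_one] at h2
        linarith
  · intro hcon
    obtain ⟨C, h⟩ := hcon 1 le_rfl
    obtain ⟨p, hp, hpoly⟩ := exists_prime_poly C C
    have : Fact p.Prime := ⟨hp⟩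
    obtain ⟨n, H, hn, hvc, hH⟩ := key (p := p) (K := p / 8) (by omega)
    have hp0 : (0 : ℝ) < p := by exact_mod_cast hp.pos
    have hp2 : (2 : ℝ) ≤ p := by exact_mod_cast hp.two_le
    obtain ⟨M, _, hM, hpart⟩ := h (1 / (8 * (p : ℝ))) (by positivity)
      (by rw [div_lt_one (by positivity)]; linarith) n H hvc
    refine hH _ M le_rfl ?_ hpart
    have h1 : (M : ℝ) ≤ ((2 ^ (p / 8) : ℕ) : ℝ) := by
      push_cast
      refine hM.trans ?_
      refine le_trans (le_of_eq ?_) hpoly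
      rw [one_div, Real.inv_rpow (by positivity), Real.rpow_neg (by positivity), inv_inv]
    exact_mod_cast h1

end Pool.Agent.Results.MP_1f4382_co.ExponentialGraphs
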